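import Mathlib
import Pool.Agent.H56.SQ.Cx
import Pool.Agent.H56.SQ.Final

set_option autoImplicit false

/-!
# MP_c06d29_gt: spaces |K| x Q embed in Q as star-finite unions of basic closed boxes

For every countable locally finite simplicial complex `K` (definition `Cx`, geometric realisation `Cx.Real`)
and every space `M` homeomorphic to `|K| × Q`, `Q = [0,1]^ℕ`, there is an embedding `f : M → Q` whose image
is the union of a star-finite family of basic closed boxes.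
-/

namespace Pool.Agent.Results.MP_c06d29_gt.TriangulatedManifolds

open Pool.Agent.H56.SQ

theorem result {V : Type} [Countable V] (K : Cx V) (M : Type) [TopologicalSpace M]
    (h : Nonempty (M ≃ₜ K.Real × (ℕ → Set.Icc (0:ℝ) 1))) :
    ∃ f : M → (ℕ → Set.Icc (0:ℝ) 1), Topology.IsEmbedding f ∧
      ∃ 𝒞 : Set (Set (ℕ → Set.Icc (0:ℝ) 1)),
        (∀ B ∈ 𝒞, ∃ a b : ℕ → ℝ, (∀ i, 0 ≤ a i ∧ a i < b i ∧ b i ≤ 1) ∧
          {i : ℕ | a i ≠ 0 ∨ b i ≠ 1}.Finite ∧
          B = {x | ∀ i, a i ≤ (x i : ℝ) ∧ (x i : ℝ) ≤ b i}) ∧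
        (∀ B ∈ 𝒞, {D ∈ 𝒞 | (B ∩ D).Nonempty}.Finite) ∧
        Set.range f = ⋃₀ 𝒞 :=
  main K M h

end Pool.Agent.Results.MP_c06d29_gt.TriangulatedManifolds
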